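import Pool.Agent.N637.SLX.Stm

/-!
# Project SLX (helper637), part MOM: the moments (helper701)
-/

set_option autoImplicit false
set_option linter.unusedVariables false
set_option linter.unusedSectionVars false

open scoped Classical

namespace Pool.Agent.N701.SLX

open Finset Filter Topology
open Pool.Agent.N916.GB (ps sx pt)
open Pool.Agent.N637.SLX

lemma card_inst {α : Type} (i j : Fintype α) (P : α → Prop) (d d' : DecidablePred P) :
    (@Finset.filter α P d (@Finset.univ α i)).card =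
      (@Finset.filter α P d' (@Finset.univ α j)).card := by
  obtain rfl : i = j := Subsingleton.elim _ _
  obtain rfl : d = d' := Subsingleton.elim _ _
  rfl

/-! ### counting alternating matrices -/

/-- one more row and column -/
def extM {n : ℕ} (β : Fin n → Fin n → ZMod 2) (v : Fin n → ZMod 2) :
    Fin (n + 1) → Fin (n + 1) → ZMod 2 :=
  Fin.snoc (α := fun _ => Fin (n + 1) → ZMod 2) (fun a => Fin.snoc (α := fun _ => ZMod 2) (β a) (v a))
    (Fin.snoc (α := fun _ => ZMod 2) v 0)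

lemma extM_cc {n : ℕ} (β : Fin n → Fin n → ZMod 2) (v : Fin n → ZMod 2) (a b : Fin n) :
    extM β v a.castSucc b.castSucc = β a b := by
  simp [extM]

lemma extM_cl {n : ℕ} (β : Fin n → Fin n → ZMod 2) (v : Fin n → ZMod 2) (a : Fin n) :
    extM β v a.castSucc (Fin.last n) = v a := by
  simp [extM]

lemma extM_lc {n : ℕ} (β : Fin n → Fin n → ZMod 2) (v : Fin n → ZMod 2) (a : Fin n) :
    extM β v (Fin.last n) a.castSucc = v a := by
  simp [extM]

lemma extM_ll {n : ℕ} (β : Fin n → Fin n → ZMod 2) (v : Fin n → ZMod 2) :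
    extM β v (Fin.last n) (Fin.last n) = 0 := by
  simp [extM]

lemma alt_succ (n : ℕ) (P : (Fin n → Fin n → ZMod 2) → Prop) :
    (univ.filter fun β : Fin (n + 1) → Fin (n + 1) → ZMod 2 =>
      Alt β ∧ P (fun a b => β a.castSucc b.castSucc)).card =
    (univ.filter fun β : Fin n → Fin n → ZMod 2 => Alt β ∧ P β).card * 2 ^ n := by
  have h1 : ((univ.filter fun β : Fin n → Fin n → ZMod 2 => Alt β ∧ P β) ×ˢ
      (univ : Finset (Fin n → ZMod 2))).card =
      (univ.filter fun β : Fin n → Fin n → ZMod 2 => Alt β ∧ P β).card * 2 ^ n := by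
    rw [card_product, card_univ, Fintype.card_fun, ZMod.card, Fintype.card_fin]
  rw [← h1]
  refine card_bij' (fun β _ => (fun a b => β a.castSucc b.castSucc,
    fun a => β a.castSucc (Fin.last n))) (fun x _ => extM x.1 x.2) ?_ ?_ ?_ ?_
  · intro β hβ
    simp only [mem_filter, mem_univ, true_and] at hβ
    simp only [mem_product, mem_filter, mem_univ, true_and, and_true]
    exact ⟨⟨fun a => hβ.1.1 _, fun a b => hβ.1.2 _ _⟩, hβ.2⟩
  · intro x hx
    simp only [mem_product, mem_filter, mem_univ, true_and, and_true] at hx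
    simp only [mem_filter, mem_univ, true_and]
    refine ⟨⟨?_, ?_⟩, ?_⟩
    · intro a
      refine Fin.lastCases ?_ (fun a => ?_) a
      · exact extM_ll _ _
      · rw [extM_cc]; exact hx.1.1 a
    · intro a b
      refine Fin.lastCases ?_ (fun a => ?_) a
      · refine Fin.lastCases rfl (fun b => ?_) b
        rw [extM_lc, extM_cl]
      · refine Fin.lastCases ?_ (fun b => ?_) b
        · rw [extM_lc, extM_cl]
        · rw [extM_cc, extM_cc]; exact hx.1.2 a b
    · have : (fun a b : Fin n => extM x.1 x.2 a.castSucc b.castSucc) = x.1 := by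
        funext a b; exact extM_cc _ _ _ _
      rw [this]; exact hx.2
  · intro β hβ
    simp only [mem_filter, mem_univ, true_and] at hβ
    funext a b
    refine Fin.lastCases ?_ (fun a => ?_) a
    · refine Fin.lastCases ?_ (fun b => ?_) b
      · rw [extM_ll, hβ.1.1]
      · rw [extM_lc, hβ.1.2]
    · refine Fin.lastCases ?_ (fun b => ?_) b
      · rw [extM_cl]
      · rw [extM_cc]
  · intro x hx
    refine Prod.ext ?_ ?_
    · funext a b; exact extM_cc _ _ _ _
    · funext a; exact extM_cl _ _ _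

/-- the number of the alternating matrices whose upper left part has corank `j` -/
noncomputable def KK (r i j : ℕ) : ℕ :=
  (univ.filter fun β : Fin (r + i) → Fin (r + i) → ZMod 2 =>
    Alt β ∧ Cor (fun a b : Fin r => β (Fin.castAdd i a) (Fin.castAdd i b)) j).card

lemma KK_eq (r i j : ℕ) :
    KK r i j * 2 ^ (r * (r - 1) / 2) = alt r j * 2 ^ ((r + i) * (r + i - 1) / 2) := by
  induction i with
  | zero => rfl
  | succ i ih =>
    have h1 : KK r (i + 1) j = KK r i j * 2 ^ (r + i) :=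
      alt_succ (r + i) (fun β => Cor (fun a b : Fin r => β (Fin.castAdd i a) (Fin.castAdd i b)) j)
    have h2 : (r + (i + 1)) * (r + (i + 1) - 1) / 2 = (r + i) * (r + i - 1) / 2 + (r + i) :=
      Nat.triangle_succ (r + i)
    rw [h1, h2, pow_add 2 ((r + i) * (r + i - 1) / 2) (r + i), ← mul_assoc, ← ih]
    ring

/-! ### few tuples are not surjective -/

section srj

variable {U J : Type} [Fintype U] [Fintype J]

lemma card_not_srj (n : ℕ) :
    (univ.filter fun y : Fin n → U ⊕ J → ZMod 2 => ¬ Srj (fun a k => y a (Sum.inr k))).card ≤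
      2 ^ n * ((2 ^ n) ^ Fintype.card U * (2 ^ n - 1) ^ Fintype.card J) := by
  have hsub : (univ.filter fun y : Fin n → U ⊕ J → ZMod 2 =>
      ¬ Srj (fun a k => y a (Sum.inr k))) ⊆
      (univ : Finset (Fin n → ZMod 2)).biUnion fun x =>
        univ.filter fun y : Fin n → U ⊕ J → ZMod 2 => ∀ k : J, (fun a => y a (Sum.inr k)) ≠ x := by
    intro y hy
    rw [mem_filter] at hy
    have hy := hy.2
    unfold Srj at hy
    push Not at hy
    obtain ⟨x, hx⟩ := hy
    simp only [mem_biUnion, mem_univ, true_and, mem_filter]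
    refine ⟨x, fun k hk => ?_⟩
    obtain ⟨a, ha⟩ := hx k
    exact ha (congrFun hk a)
  refine (card_le_card hsub).trans (card_biUnion_le.trans ?_)
  have hc : (univ : Finset (Fin n → ZMod 2)).card = 2 ^ n := by
    rw [card_univ, Fintype.card_fun, ZMod.card, Fintype.card_fin]
  have key : ∀ x ∈ (univ : Finset (Fin n → ZMod 2)),
      (univ.filter fun y : Fin n → U ⊕ J → ZMod 2 =>
        ∀ k : J, (fun a => y a (Sum.inr k)) ≠ x).card ≤
      (2 ^ n) ^ Fintype.card U * (2 ^ n - 1) ^ Fintype.card J := by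
    intro x _
    have h1 : ((univ : Finset (U → Fin n → ZMod 2)) ×ˢ
        (Fintype.piFinset fun _ : J => (univ : Finset (Fin n → ZMod 2)).erase x)).card =
        (2 ^ n) ^ Fintype.card U * (2 ^ n - 1) ^ Fintype.card J := by
      rw [card_product, Fintype.card_piFinset, prod_const, card_erase_of_mem (mem_univ x), hc,
        card_univ, card_univ, Fintype.card_fun, Fintype.card_fun, ZMod.card, Fintype.card_fin]
    rw [← h1]
    refine card_le_card_of_injOn (fun y => (fun v a => y a (Sum.inl v),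
      fun k a => y a (Sum.inr k))) ?_ ?_
    · intro y hy
      simp only [coe_filter, mem_univ, true_and, Set.mem_ofPred_eq] at hy
      simp only [coe_product, Set.mem_prod, mem_coe, mem_univ, true_and, Fintype.mem_piFinset,
        mem_erase, and_true]
      exact hy
    · intro y _ y' _ h
      rw [Prod.mk.injEq] at h
      funext a v
      cases v with
      | inl v => exact congrFun (congrFun h.1 v) a
      | inr k => exact congrFun (congrFun h.2 k) a
  calc _ ≤ ∑ _x ∈ (univ : Finset (Fin n → ZMod 2)),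
        (2 ^ n) ^ Fintype.card U * (2 ^ n - 1) ^ Fintype.card J := sum_le_sum key
    _ = _ := by rw [sum_const, hc, smul_eq_mul]

/-- the proportion of the tuples which are not surjective -/
lemma srj_bound (n V₀ : ℕ) (hV : 1 ≤ V₀)
    (h1 : (2 : ℝ) ^ n * (1 - (1 / 2) ^ n) ^ V₀ ≤ 1)
    (hT : V₀ * (Fintype.card U + 1) ≤ Fintype.card J) :
    ((univ.filter fun y : Fin n → U ⊕ J → ZMod 2 => ¬ Srj (fun a k => y a (Sum.inr k))).card : ℝ) /
      2 ^ (n * Fintype.card J) ≤ 2 ^ n * (1 - (1 / 2) ^ n) ^ V₀ := by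
  set ρ : ℝ := 1 - (1 / 2) ^ n with hρ
  have hp : (1 / 2 : ℝ) ^ n ≤ 1 := pow_le_one₀ (by norm_num) (by norm_num)
  have hp0 : (0 : ℝ) < (1 / 2 : ℝ) ^ n := by positivity
  have hρ0 : 0 ≤ ρ := by rw [hρ]; linarith
  have hρ1 : ρ ≤ 1 := by rw [hρ]; linarith
  have h2n : (1 : ℕ) ≤ 2 ^ n := Nat.one_le_two_pow
  have hc : ((univ.filter fun y : Fin n → U ⊕ J → ZMod 2 =>
      ¬ Srj (fun a k => y a (Sum.inr k))).card : ℝ) ≤
      2 ^ n * ((2 ^ n) ^ Fintype.card U * (2 ^ n - 1) ^ Fintype.card J) := by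
    have := card_not_srj (U := U) (J := J) n
    have h3 : ((univ.filter fun y : Fin n → U ⊕ J → ZMod 2 =>
      ¬ Srj (fun a k => y a (Sum.inr k))).card : ℝ) ≤
      ((2 ^ n * ((2 ^ n) ^ Fintype.card U * (2 ^ n - 1) ^ Fintype.card J) : ℕ) : ℝ) := by
      exact_mod_cast this
    rw [Nat.cast_mul, Nat.cast_mul, Nat.cast_pow, Nat.cast_pow, Nat.cast_pow, Nat.cast_pow,
      Nat.cast_sub h2n] at h3
    push_cast at h3
    exact h3
  have e1 : ((2 : ℝ) ^ n - 1) ^ Fintype.card J = 2 ^ (n * Fintype.card J) * ρ ^ Fintype.card J := by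
    rw [pow_mul, ← mul_pow]
    congr 1
    rw [hρ, mul_sub, mul_one, ← mul_pow]
    norm_num
  rw [div_le_iff₀ (by positivity)]
  refine hc.trans ?_
  rw [e1]
  have h4 : ρ ^ Fintype.card J ≤ (ρ ^ V₀) ^ Fintype.card U * ρ ^ V₀ := by
    rw [← pow_mul, ← pow_add, ← Nat.mul_succ]
    exact pow_le_pow_of_le_one hρ0 hρ1 hT
  have h5 : ((2 : ℝ) ^ n) ^ Fintype.card U * ((ρ ^ V₀) ^ Fintype.card U * ρ ^ V₀) ≤ ρ ^ V₀ := by
    rw [← mul_assoc, ← mul_pow]
    exact mul_le_of_le_one_left (by positivity) (pow_le_one₀ (by positivity) h1)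
  calc (2 : ℝ) ^ n * ((2 ^ n) ^ Fintype.card U * (2 ^ (n * Fintype.card J) * ρ ^ Fintype.card J))
      = 2 ^ n * (2 ^ (n * Fintype.card J)) * ((2 ^ n) ^ Fintype.card U * ρ ^ Fintype.card J) := by
        ring
    _ ≤ 2 ^ n * (2 ^ (n * Fintype.card J)) *
        ((2 ^ n) ^ Fintype.card U * ((ρ ^ V₀) ^ Fintype.card U * ρ ^ V₀)) := by gcongr
    _ ≤ 2 ^ n * (2 ^ (n * Fintype.card J)) * ρ ^ V₀ := by gcongr
    _ = 2 ^ n * ρ ^ V₀ * 2 ^ (n * Fintype.card J) := by ring

end srj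

/-! ### the main term -/

lemma z2 (a : ZMod 2) : a + a = 0 := CharTwo.add_self_eq_zero a

lemma z2m (a : ZMod 2) : a * a = a := by revert a; decide

lemma Bf_self {V : Type} [Fintype V] (e y : V → ZMod 2) : Bf e y y = 0 := by
  unfold Bf
  rw [z2m]
  have : ∀ p, e p * y p * y p = e p * y p := fun p => by rw [mul_assoc, z2m]
  simp only [this]
  exact z2 _

lemma Bf_symm {V : Type} [Fintype V] (e y z : V → ZMod 2) : Bf e y z = Bf e z y := by
  unfold Bf
  rw [mul_comm]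
  congr 1
  exact sum_congr rfl fun p _ => by ring

section main

variable {U J : Type} [Fintype U] [Fintype J] [LinearOrder J]

lemma Stg_mono {w u e : U ⊕ J → ZMod 2} {N : U ⊕ J → U ⊕ J → ZMod 2} {V₀ V₁ : ℕ}
    (h : Stg U J w u e N V₀) (hV : V₁ ≤ V₀) : Stg U J w u e N V₁ :=
  { h with
    c1 := (Nat.mul_le_mul_right _ hV).trans h.c1
    c2 := (Nat.mul_le_mul_right _ hV).trans h.c2 }

lemma hh_sum (N : U ⊕ J → U ⊕ J → ZMod 2) (y : U ⊕ J → ZMod 2) (h : Ueq N y) :
    ∑ k, hh N y k = 0 := by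
  have h1 : ∑ p, ∑ q, (y q * N q p + y p * N p q) = 0 := by
    simp only [sum_add_distrib]
    rw [sum_comm]
    exact z2 _
  rw [Fintype.sum_sum_type] at h1
  have h2 : ∑ v : U, ∑ q, (y q * N q (Sum.inl v) + y (Sum.inl v) * N (Sum.inl v) q) = 0 :=
    sum_eq_zero fun v _ => h v
  rw [h2, zero_add] at h1
  exact h1

/-- the number of the completions for which the tuple is in the left kernel -/
noncomputable def Pn {n : ℕ} (N : U ⊕ J → U ⊕ J → ZMod 2) (y : Fin n → U ⊕ J → ZMod 2) : ℕ :=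
  (univ.filter fun σ : ps J → ZMod 2 => ∀ a, IsLk (pt N (sx σ)) (y a)).card

/-- the condition on the Gram matrix -/
def CG (e : U ⊕ J → ZMod 2) (r i j : ℕ) (y : Fin (r + i) → U ⊕ J → ZMod 2) : Prop :=
  Cor (fun a b : Fin r => Bf e (y (Fin.castAdd i a)) (y (Fin.castAdd i b))) j

/-- the compatible tuples -/
def Gp (e : U ⊕ J → ZMod 2) (N : U ⊕ J → U ⊕ J → ZMod 2) (r i j : ℕ)
    (y : Fin (r + i) → U ⊕ J → ZMod 2) : Prop :=
  (∀ a, Ueq N (y a)) ∧ (∀ a b, Cpt N (y a) (y b)) ∧ CG e r i j y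

lemma sum_Tn' {V Ω : Type} [Fintype V] [Fintype Ω] (w e : V → ZMod 2) (N : Ω → V → V → ZMod 2)
    (r i j : ℕ) : ∑ σ : Ω, Tn w e (N σ) r i j =
      ∑ y : Fin (r + i) → V → ZMod 2, if Ind w y ∧
        Cor (fun a b : Fin r => Bf e (y (Fin.castAdd i a)) (y (Fin.castAdd i b))) j then
        (univ.filter fun σ : Ω => ∀ a, IsLk (N σ) (y a)).card else 0 := by
  unfold Tn
  simp only [card_filter]
  rw [sum_comm]
  refine sum_congr rfl fun y _ => ?_
  by_cases h : Ind w y ∧ Cor (fun a b : Fin r => Bf e (y (Fin.castAdd i a)) (y (Fin.castAdd i b))) j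
  · rw [if_pos h]
    refine sum_congr rfl fun σ _ => ?_
    have hiff : ((∀ a, IsLk (N σ) (y a)) ∧ Ind w y ∧
        Cor (fun a b : Fin r => Bf e (y (Fin.castAdd i a)) (y (Fin.castAdd i b))) j) ↔
        (∀ a, IsLk (N σ) (y a)) := ⟨fun h3 => h3.1, fun h3 => ⟨h3, h.1, h.2⟩⟩
    simp only [hiff]
  · rw [if_neg h]
    refine sum_eq_zero fun σ _ => ?_
    have hiff : ((∀ a, IsLk (N σ) (y a)) ∧ Ind w y ∧
        Cor (fun a b : Fin r => Bf e (y (Fin.castAdd i a)) (y (Fin.castAdd i b))) j) ↔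
        False := ⟨fun h3 => h ⟨h3.2.1, h3.2.2⟩, fun h3 => h3.elim⟩
    simp only [hiff, if_false]

lemma sum_Tn (w e : U ⊕ J → ZMod 2) (N : U ⊕ J → U ⊕ J → ZMod 2) (r i j : ℕ) :
    ∑ σ : ps J → ZMod 2, Tn w e (pt N (sx σ)) r i j =
      ∑ y : Fin (r + i) → U ⊕ J → ZMod 2, if Ind w y ∧ CG e r i j y then Pn N y else 0 := by
  rw [sum_Tn' w e (fun σ : ps J → ZMod 2 => pt N (sx σ)) r i j]
  unfold Pn CG
  refine Finset.sum_congr (congrArg (@Finset.univ _) (Subsingleton.elim _ _)) fun y _ => ?_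
  by_cases h : Ind w y ∧ Cor (fun a b : Fin r => Bf e (y (Fin.castAdd i a)) (y (Fin.castAdd i b))) j
  · rw [if_pos h]
  · rw [if_neg h]

lemma Pn_srj (hEQ : S_EQS) {n : ℕ} {w : U ⊕ J → ZMod 2} {N : U ⊕ J → U ⊕ J → ZMod 2}
    (hP : ∀ (n : ℕ) (y : Fin n → U ⊕ J → ZMod 2),
      (univ.filter fun σ : ps J → ZMod 2 => ∀ a, IsLk (pt N (sx σ)) (y a)).card =
      if ∀ a, Ueq N (y a) then Sol (fun a k => y a (Sum.inr k)) (fun a k => hh N (y a) k) else 0)
    (y : Fin n → U ⊕ J → ZMod 2) (hs : Srj (fun a k => y a (Sum.inr k))) :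
    Pn N y * 2 ^ (n * Fintype.card J) =
      if (∀ a, Ueq N (y a)) ∧ (∀ a b, Cpt N (y a) (y b)) then
        2 ^ ((ps J).card + n + n * (n - 1) / 2) else 0 := by
  have h1 : Pn N y = if ∀ a, Ueq N (y a) then
      Sol (fun a k => y a (Sum.inr k)) (fun a k => hh N (y a) k) else 0 := hP n y
  rw [h1]
  by_cases hU : ∀ a, Ueq N (y a)
  · rw [if_pos hU]
    by_cases hC : ∀ a b, Cpt N (y a) (y b)
    · rw [if_pos ⟨hU, hC⟩]
      exact (hEQ n J _ _).2.1 hs ⟨fun a => hh_sum N (y a) (hU a), hC⟩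
    · rw [if_neg (fun hc => hC hc.2), (hEQ n J _ _).1 (fun hc => hC hc.2), zero_mul]
  · rw [if_neg hU, if_neg (fun hc => hU hc.1), zero_mul]

lemma Pn_le (hEQ : S_EQS) {n : ℕ} {w : U ⊕ J → ZMod 2} {N : U ⊕ J → U ⊕ J → ZMod 2}
    (hA : ∀ δ : J → J → ZMod 2, (∀ k l, δ k l = δ l k) →
      ∀ (n : ℕ) (y : Fin n → U ⊕ J → ZMod 2), (∀ a, IsLk (pt N δ) (y a)) → Ind w y →
      Aff (fun a k => y a (Sum.inr k)))
    (hP : ∀ (n : ℕ) (y : Fin n → U ⊕ J → ZMod 2),
      (univ.filter fun σ : ps J → ZMod 2 => ∀ a, IsLk (pt N (sx σ)) (y a)).card =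
      if ∀ a, Ueq N (y a) then Sol (fun a k => y a (Sum.inr k)) (fun a k => hh N (y a) k) else 0)
    (y : Fin n → U ⊕ J → ZMod 2) (hi : Ind w y) :
    Pn N y * 2 ^ (n * Fintype.card J) ≤ 2 ^ ((ps J).card + n * 2 ^ n) := by
  by_cases h0 : Pn N y = 0
  · rw [h0, zero_mul]; exact Nat.zero_le _
  have h1 : Pn N y = if ∀ a, Ueq N (y a) then
      Sol (fun a k => y a (Sum.inr k)) (fun a k => hh N (y a) k) else 0 := hP n y
  have hU : ∀ a, Ueq N (y a) := by
    by_contra hU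
    rw [if_neg hU] at h1
    exact h0 h1
  obtain ⟨σ, hσ⟩ := card_pos.1 (Nat.pos_of_ne_zero h0)
  rw [mem_filter] at hσ
  have hsym : ∀ k l, sx σ k l = sx σ l k := by
    intro k l
    have hm : ∀ a b : J, (a, b) ∈ ps J ↔ a < b := by
      intro a b; simp [ps]
    unfold sx
    rcases lt_trichotomy k l with h | h | h
    · have h2 : (k, l) ∈ ps J := (hm k l).2 h
      have h3 : (l, k) ∉ ps J := fun hc => absurd ((hm l k).1 hc) (not_lt.2 h.le)
      rw [dif_pos h2, dif_neg h3, dif_pos h2]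
    · rw [h]
    · have h2 : (l, k) ∈ ps J := (hm l k).2 h
      have h3 : (k, l) ∉ ps J := fun hc => absurd ((hm k l).1 hc) (not_lt.2 h.le)
      rw [dif_pos h2, dif_neg h3, dif_pos h2]
  have haff := hA (sx σ) hsym n y hσ.2 hi
  rw [h1, if_pos hU]
  exact (hEQ n J _ _).2.2 haff

/-- the comparison -/
lemma diff_y (hEQ : S_EQS) {r i j : ℕ} {w e : U ⊕ J → ZMod 2} {N : U ⊕ J → U ⊕ J → ZMod 2}
    (hA : ∀ δ : J → J → ZMod 2, (∀ k l, δ k l = δ l k) →
      ∀ (n : ℕ) (y : Fin n → U ⊕ J → ZMod 2), (∀ a, IsLk (pt N δ) (y a)) → Ind w y →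
      Aff (fun a k => y a (Sum.inr k)))
    (hI : ∀ (n : ℕ) (y : Fin n → U ⊕ J → ZMod 2), Srj (fun a k => y a (Sum.inr k)) → Ind w y)
    (hP : ∀ (n : ℕ) (y : Fin n → U ⊕ J → ZMod 2),
      (univ.filter fun σ : ps J → ZMod 2 => ∀ a, IsLk (pt N (sx σ)) (y a)).card =
      if ∀ a, Ueq N (y a) then Sol (fun a k => y a (Sum.inr k)) (fun a k => hh N (y a) k) else 0)
    (y : Fin (r + i) → U ⊕ J → ZMod 2) :
    |(if Ind w y ∧ CG e r i j y then (Pn N y : ℝ) else 0) * 2 ^ ((r + i) * Fintype.card J) -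
      (if Gp e N r i j y then
        2 ^ ((ps J).card + (r + i) + (r + i) * (r + i - 1) / 2) else 0)| ≤
      if ¬ Srj (fun a k => y a (Sum.inr k)) then
        2 ^ ((ps J).card + (r + i) * 2 ^ (r + i)) +
          2 ^ ((ps J).card + (r + i) + (r + i) * (r + i - 1) / 2) else 0 := by
  by_cases hs : Srj (fun a k => y a (Sum.inr k))
  · rw [if_neg (not_not.2 hs)]
    have h1 := Pn_srj hEQ (w := w) hP y hs
    have hi := hI _ y hs
    refine le_of_eq (abs_eq_zero.2 ?_)
    rw [sub_eq_zero]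
    by_cases hG : CG e r i j y
    · rw [if_pos ⟨hi, hG⟩]
      have h2 : (Pn N y : ℝ) * 2 ^ ((r + i) * Fintype.card J) =
          ((if (∀ a, Ueq N (y a)) ∧ (∀ a b, Cpt N (y a) (y b)) then
        2 ^ ((ps J).card + (r + i) + (r + i) * (r + i - 1) / 2) else 0 : ℕ) : ℝ) := by
        rw [← h1]; push_cast; rfl
      rw [h2]
      by_cases h3 : (∀ a, Ueq N (y a)) ∧ (∀ a b, Cpt N (y a) (y b))
      · rw [if_pos h3, if_pos ⟨h3.1, h3.2, hG⟩]; push_cast; rfl
      · rw [if_neg h3, if_neg (fun hc => h3 ⟨hc.1, hc.2.1⟩)]; simp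
    · rw [if_neg (fun hc => hG hc.2), if_neg (fun hc => hG hc.2.2), zero_mul]
  · rw [if_pos hs]
    have a1 : |(if Ind w y ∧ CG e r i j y then (Pn N y : ℝ) else 0) *
        2 ^ ((r + i) * Fintype.card J)| ≤ 2 ^ ((ps J).card + (r + i) * 2 ^ (r + i)) := by
      rw [abs_of_nonneg (by split_ifs <;> positivity)]
      by_cases h : Ind w y ∧ CG e r i j y
      · rw [if_pos h]
        exact_mod_cast Pn_le hEQ hA hP y h.1
      · rw [if_neg h, zero_mul]; positivity
    have a2 : |(if Gp e N r i j y then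
        (2 : ℝ) ^ ((ps J).card + (r + i) + (r + i) * (r + i - 1) / 2) else 0)| ≤
        2 ^ ((ps J).card + (r + i) + (r + i) * (r + i - 1) / 2) := by
      rw [abs_of_nonneg (by split_ifs <;> positivity)]
      split_ifs
      · exact le_refl _
      · positivity
    exact (abs_sub _ _).trans (add_le_add a1 a2)

/-- the number of the compatible tuples, as a sum over the Gram matrices -/
lemma card_Gp (e : U ⊕ J → ZMod 2) (N : U ⊕ J → U ⊕ J → ZMod 2) (r i j : ℕ) :
    (univ.filter fun y : Fin (r + i) → U ⊕ J → ZMod 2 => Gp e N r i j y).card =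
      ∑ β ∈ univ.filter fun β : Fin (r + i) → Fin (r + i) → ZMod 2 =>
        Alt β ∧ Cor (fun a b : Fin r => β (Fin.castAdd i a) (Fin.castAdd i b)) j,
        (univ.filter fun y : Fin (r + i) → U ⊕ J → ZMod 2 => (∀ a, Ueq N (y a)) ∧
          (∀ a b, Cpt N (y a) (y b)) ∧ ∀ a b, a < b → Bf e (y a) (y b) = β a b).card := by
  rw [card_eq_sum_card_fiberwise (f := fun y : Fin (r + i) → U ⊕ J → ZMod 2 =>
    fun a b => Bf e (y a) (y b)) (t := univ.filter fun β : Fin (r + i) → Fin (r + i) → ZMod 2 =>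
        Alt β ∧ Cor (fun a b : Fin r => β (Fin.castAdd i a) (Fin.castAdd i b)) j)]
  · refine sum_congr rfl fun β hβ => ?_
    rw [mem_filter] at hβ
    congr 1
    ext y
    simp only [mem_filter, mem_univ, true_and]
    constructor
    · rintro ⟨⟨h1, h2, h3⟩, rfl⟩
      exact ⟨h1, h2, fun a b _ => rfl⟩
    · rintro ⟨h1, h2, h3⟩
      have h4 : (fun a b => Bf e (y a) (y b)) = β := by
        funext a b
        rcases lt_trichotomy a b with h | h | h
        · exact h3 a b h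
        · rw [h, Bf_self, hβ.2.1.1]
        · rw [Bf_symm, h3 b a h, hβ.2.1.2]
      refine ⟨⟨h1, h2, ?_⟩, h4⟩
      unfold CG
      have h5 := hβ.2.2
      rw [← h4] at h5
      exact h5
  · intro y hy
    simp only [coe_filter, mem_univ, true_and, Set.mem_ofPred_eq] at hy ⊢
    exact ⟨⟨fun a => Bf_self e (y a), fun a b => Bf_symm e (y a) (y b)⟩, hy.2.2⟩

end main

theorem t_MOM : S_EQS → S_CNT → S_REL → S_MOM := by
  intro hEQ hCNT hREL r i j ε hε
  -- the constants
  set n := r + i with hn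
  set K : ℝ := (KK r i j : ℝ) with hK
  have hK0 : 0 ≤ K := Nat.cast_nonneg _
  set A : ℝ := 2 ^ (n + n * (n - 1) / 2) with hA
  have hA0 : 0 < A := by positivity
  set C : ℝ := 2 ^ (n * 2 ^ n) + A with hC
  have hC0 : 0 < C := by positivity
  obtain ⟨V₁, hV₁⟩ := hCNT n (ε / (2 * (A * K + 1))) (by positivity)
  have hρ : Tendsto (fun V : ℕ => (2 : ℝ) ^ n * (1 - (1 / 2) ^ n) ^ V) atTop (𝓝 0) := by
    have h1 : (0 : ℝ) < (1 / 2 : ℝ) ^ n := by positivity
    have h2 : (1 / 2 : ℝ) ^ n ≤ 1 := pow_le_one₀ (by norm_num) (by norm_num)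
    have := (tendsto_pow_atTop_nhds_zero_of_lt_one (r := 1 - (1 / 2 : ℝ) ^ n) (by linarith)
      (by linarith)).const_mul ((2 : ℝ) ^ n)
    simpa using this
  obtain ⟨V₂, hV₂⟩ := eventually_atTop.1
    ((hρ.eventually_le_const (zero_lt_one)).and
      (hρ.eventually_le_const (by positivity : (0 : ℝ) < ε / (2 * C))))
  refine ⟨max 1 (max V₁ V₂), ?_⟩
  intro U J _ _ _ w u e N hS
  set V₀ := max 1 (max V₁ V₂) with hV₀
  have hR := hREL U J w u e N (Stg_mono hS (le_max_left _ _))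
  have hcnt := hV₁ U J w u e N (Stg_mono hS ((le_max_left _ _).trans (le_max_right _ _)))
  obtain ⟨b1, b2⟩ := hV₂ V₀ ((le_max_right _ _).trans (le_max_right _ _))
  have hT : V₀ * (Fintype.card U + 1) ≤ Fintype.card J := by
    refine hS.c1.trans ?_
    rw [← card_univ]
    exact card_le_card (filter_subset _ _)
  have hbad0 := srj_bound (U := U) (J := J) n V₀ (le_max_left _ _) b1 hT
  -- the comparison
  set PS := (ps J).card with hPS
  set X : ℝ := 2 ^ (n * Fintype.card J) with hX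
  have hX0 : 0 < X := by positivity
  set Bd : ℝ := ((univ.filter fun y : Fin n → U ⊕ J → ZMod 2 =>
    ¬ Srj (fun a k => y a (Sum.inr k))).card : ℝ) with hBd
  set Gc : ℝ := ((univ.filter fun y : Fin n → U ⊕ J → ZMod 2 => Gp e N r i j y).card : ℝ) with hGc
  set S : ℝ := ∑ σ : ps J → ZMod 2, (Tn w e (pt N (sx σ)) r i j : ℝ) with hSdef
  have hS1 : S = ∑ y : Fin n → U ⊕ J → ZMod 2,
      if Ind w y ∧ CG e r i j y then (Pn N y : ℝ) else 0 := by
    have h1 := sum_Tn w e N r i j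
    have h2 : S = ((∑ σ : ps J → ZMod 2, Tn w e (pt N (sx σ)) r i j : ℕ) : ℝ) := by
      rw [hSdef]; push_cast; rfl
    rw [h2, h1]
    push_cast
    rfl
  have hdiff : |S * X - 2 ^ (PS + n + n * (n - 1) / 2) * Gc| ≤
      (2 ^ (PS + n * 2 ^ n) + 2 ^ (PS + n + n * (n - 1) / 2)) * Bd := by
    have e1 : 2 ^ (PS + n + n * (n - 1) / 2) * Gc = ∑ y : Fin n → U ⊕ J → ZMod 2,
        if Gp e N r i j y then (2 : ℝ) ^ (PS + n + n * (n - 1) / 2) else 0 := by
      rw [← sum_filter, sum_const, nsmul_eq_mul, mul_comm]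
    have e2 : (2 ^ (PS + n * 2 ^ n) + 2 ^ (PS + n + n * (n - 1) / 2)) * Bd =
        ∑ y : Fin n → U ⊕ J → ZMod 2, if ¬ Srj (fun a k => y a (Sum.inr k)) then
          (2 : ℝ) ^ (PS + n * 2 ^ n) + 2 ^ (PS + n + n * (n - 1) / 2) else 0 := by
      rw [← sum_filter, sum_const, nsmul_eq_mul, mul_comm]
    rw [hS1, e1, e2, sum_mul, ← sum_sub_distrib]
    refine (abs_sum_le_sum_abs _ _).trans (sum_le_sum fun y _ => ?_)
    exact diff_y hEQ (fun δ hδ => (hR.1 δ hδ).2.2) hR.2.1 hR.2.2 y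
  -- the count of the compatible tuples
  have hG1 : |Gc - K * (X / 2 ^ (n * (n - 1)))| ≤ K * (ε / (2 * (A * K + 1)) * X) := by
    have h1 := card_Gp e N r i j
    have h2 : Gc = ∑ β ∈ univ.filter fun β : Fin (r + i) → Fin (r + i) → ZMod 2 =>
        Alt β ∧ Cor (fun a b : Fin r => β (Fin.castAdd i a) (Fin.castAdd i b)) j,
        ((univ.filter fun y : Fin (r + i) → U ⊕ J → ZMod 2 => (∀ a, Ueq N (y a)) ∧
          (∀ a b, Cpt N (y a) (y b)) ∧ ∀ a b, a < b → Bf e (y a) (y b) = β a b).card : ℝ) := by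
      rw [hGc, h1]; push_cast; rfl
    have h3 : K * (X / 2 ^ (n * (n - 1))) =
        ∑ β ∈ univ.filter fun β : Fin (r + i) → Fin (r + i) → ZMod 2 =>
        Alt β ∧ Cor (fun a b : Fin r => β (Fin.castAdd i a) (Fin.castAdd i b)) j,
        X / 2 ^ (n * (n - 1)) := by
      rw [sum_const, nsmul_eq_mul]; rfl
    have h4 : K * (ε / (2 * (A * K + 1)) * X) =
        ∑ β ∈ univ.filter fun β : Fin (r + i) → Fin (r + i) → ZMod 2 =>
        Alt β ∧ Cor (fun a b : Fin r => β (Fin.castAdd i a) (Fin.castAdd i b)) j,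
        ε / (2 * (A * K + 1)) * X := by
      rw [sum_const, nsmul_eq_mul]; rfl
    rw [h2, h3, h4, ← sum_sub_distrib]
    exact (abs_sum_le_sum_abs _ _).trans (sum_le_sum fun β _ => hcnt β)
  -- powers of two
  have hP0 : (0 : ℝ) < 2 ^ PS := by positivity
  have p1 : (2 : ℝ) ^ (PS + n + n * (n - 1) / 2) = 2 ^ PS * A := by
    rw [hA, ← pow_add, add_assoc]
  have p2 : (2 : ℝ) ^ (PS + n * 2 ^ n) = 2 ^ PS * 2 ^ (n * 2 ^ n) := pow_add _ _ _
  have p3 : A * (K / 2 ^ (n * (n - 1))) = 2 ^ n * (alt r j : ℝ) / 2 ^ (r * (r - 1) / 2) := by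
    have h1 : K * 2 ^ (r * (r - 1) / 2) = (alt r j : ℝ) * 2 ^ (n * (n - 1) / 2) := by
      have h0 : (KK r i j : ℝ) * 2 ^ (r * (r - 1) / 2) =
          (alt r j : ℝ) * 2 ^ ((r + i) * (r + i - 1) / 2) := by
        exact_mod_cast KK_eq r i j
      exact h0
    have h2 : n * (n - 1) = n * (n - 1) / 2 + n * (n - 1) / 2 := by
      have := Nat.div_two_mul_two_of_even (Nat.even_mul_pred_self n)
      omega
    have h3 : (2 : ℝ) ^ (n * (n - 1)) = 2 ^ (n * (n - 1) / 2) * 2 ^ (n * (n - 1) / 2) := by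
      conv_lhs => rw [h2]
      rw [pow_add]
    rw [hA, h3, pow_add, mul_div_assoc', div_eq_div_iff (by positivity) (by positivity)]
    linear_combination (2 : ℝ) ^ n * 2 ^ (n * (n - 1) / 2) * h1
  rw [p1, p2] at hdiff
  -- conclusion
  have f1 : |S / 2 ^ PS - A * Gc / X| ≤ C * (Bd / X) := by
    have e1 : S / 2 ^ PS - A * Gc / X = (S * X - 2 ^ PS * A * Gc) / (2 ^ PS * X) := by
      field_simp
    rw [e1, abs_div, abs_of_pos (by positivity : (0 : ℝ) < 2 ^ PS * X),
      div_le_iff₀ (by positivity)]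
    refine hdiff.trans (le_of_eq ?_)
    rw [hC]
    field_simp
  have f2 : |A * Gc / X - A * (K / 2 ^ (n * (n - 1)))| ≤ ε / 2 := by
    have e1 : A * Gc / X - A * (K / 2 ^ (n * (n - 1))) =
        A * (Gc - K * (X / 2 ^ (n * (n - 1)))) / X := by
      field_simp
    rw [e1, abs_div, abs_mul, abs_of_pos hA0, abs_of_pos hX0, div_le_iff₀ hX0]
    calc A * |Gc - K * (X / 2 ^ (n * (n - 1)))| ≤ A * (K * (ε / (2 * (A * K + 1)) * X)) := by
          gcongr
      _ = (A * K) / (A * K + 1) * (ε / 2 * X) := by field_simp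
      _ ≤ 1 * (ε / 2 * X) := by
          gcongr
          rw [div_le_one (by positivity)]
          linarith
      _ = ε / 2 * X := one_mul _
  have hbad : Bd / X ≤ 2 ^ n * (1 - (1 / 2) ^ n) ^ V₀ := by
    refine le_trans (le_of_eq ?_) hbad0
    rw [hBd]
    exact congrArg (fun x : ℕ => (x : ℝ) / X) (card_inst _ _ _ _ _)
  have f3 : C * (Bd / X) ≤ ε / 2 := by
    calc C * (Bd / X) ≤ C * (ε / (2 * C)) :=
          mul_le_mul_of_nonneg_left (hbad.trans b2) hC0.le
      _ = ε / 2 := by field_simp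
  rw [← p3]
  have e3 : S / 2 ^ PS - A * (K / 2 ^ (n * (n - 1))) = (S / 2 ^ PS - A * Gc / X) +
      (A * Gc / X - A * (K / 2 ^ (n * (n - 1)))) := by ring
  rw [e3]
  refine (abs_add_le _ _).trans ?_
  linarith

end Pool.Agent.N701.SLX
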